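import Mathlib
import Pool.Agent.X316.ZU.Cel
import Pool.Agent.X316.ZE.Pub

/-!
MP_b9fedf_ag, Q1: the Zariski closure of an entire curve which is algebraic over the elliptic
functions of a lattice and a jointly universal family (e.g. the Riemann zeta function) is the closure
of the image of a rational map from the product of an elliptic curve and an affine space, and if the
curve is not constant, it is the closure of the union of the images of the nonconstant holomorphic
maps from one-dimensional complex tori.
-/

set_option autoImplicit false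

namespace Pool.Agent.Results.MP_b9fedf_ag.ClosuresOfBuiltCurves

open Filter MvPolynomial
open scoped LinearAlgebra.Projectivization
open Pool.Agent.TH143.EL (HolMap InV Ell TorusMapsIn)
open Pool.Agent.W602.GT (IsForm)
open Pool.Agent.Y377.IL (AlgebraicOver)
open Pool.Agent.X316.ZG (JointlyUniversal)
open Pool.Agent.X316.ZE (dringB)
open Pool.Agent.X316.ZU (atPt)

/-- The Zariski closure of the curve `f` is the Zariski closure of the image of a rational map from
the product of the complex torus with the periods `ω₁`, `ω₂` and the affine space of dimension `m`: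
the map is given by polynomials `W 0, ..., W N` in `m` variables whose coefficients are elliptic
functions with these periods, and a form vanishes along `f` if and only if it vanishes at
`(W 0, ..., W N)`. -/
def ClosureFrom {N : ℕ} (f : ℂ → ℙ ℂ (Fin (N + 1) → ℂ)) (ω₁ ω₂ : ℂ) (m : ℕ) : Prop :=
  ∃ W : Fin (N + 1) → MvPolynomial (Fin m) (Ell ω₁ ω₂),
    ∀ G : MvPolynomial (Fin (N + 1)) ℂ, IsForm G →
      ((∀ z, eval (f z).rep G = 0) ↔ ∀ᶠ z in codiscrete ℂ,
        aeval (fun j => MvPolynomial.map (atPt (Ell ω₁ ω₂) z).toRingHom (W j)) G = 0)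

/-- Let `f` be an entire curve in projective space which is algebraic over the ring generated by the
elliptic functions with the periods `ω₁`, `ω₂`, the functions of a jointly universal family and all
their derivatives. (1) The Zariski closure of `f` is dominated by the product of the elliptic curve
with the periods `n ω₁`, `n ω₂`, for some `n > 0`, and an affine space. (2) If `f` is not constant,
then every form which vanishes on the images of all nonconstant holomorphic maps from complex tori of
dimension one to the Zariski closure of `f` vanishes along `f`. (3) The zeta function is jointly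
universal. -/
theorem result :
    (∀ (ω₁ ω₂ : ℂ), LinearIndependent ℝ ![ω₁, ω₂] → ∀ (ι : Type) (u : ι → ℂ → ℂ),
      JointlyUniversal u → ∀ (N : ℕ) (f : ℂ → ℙ ℂ (Fin (N + 1) → ℂ)), HolMap f →
        AlgebraicOver (dringB (Ell ω₁ ω₂) u) f →
        (∃ n m : ℕ, 0 < n ∧ ClosureFrom f (n * ω₁) (n * ω₂) m) ∧
        ((∃ z w, f z ≠ f w) → ∀ G : MvPolynomial (Fin (N + 1)) ℂ, IsForm G →
          (∀ (η₁ η₂ : ℂ) (g : ℂ → ℙ ℂ (Fin (N + 1) → ℂ)), LinearIndependent ℝ ![η₁, η₂] →
            HolMap g → (∀ z, g (z + η₁) = g z) → (∀ z, g (z + η₂) = g z) →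
            (∃ z w, g z ≠ g w) →
            (∀ H : MvPolynomial (Fin (N + 1)) ℂ, IsForm H → (∀ z, eval (f z).rep H = 0) →
              ∀ z, eval (g z).rep H = 0) → ∀ z, eval (g z).rep G = 0) →
          ∀ z, eval (f z).rep G = 0)) ∧
    JointlyUniversal fun _ : Unit => riemannZeta := by
  refine ⟨fun ω₁ ω₂ hind ι u hu N f hf ha => ⟨?_, fun hnc G hG hT => ?_⟩,
    Pool.Agent.X316.ZG.zeta_universal⟩
  · obtain ⟨n, m, W, hn, hW⟩ := Pool.Agent.X316.ZU.closure_ell hind hu hf ha
    exact ⟨n, m, hn, W, hW⟩
  · let I : Ideal (MvPolynomial (Fin (N + 1)) ℂ) :=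
      Ideal.span {H | IsForm H ∧ ∀ z, eval (f z).rep H = 0}
    have hI : ∀ z, InV I (f z) := by
      intro z H hH _
      have h1 : I ≤ RingHom.ker (eval (f z).rep) := by
        rw [Ideal.span_le]
        intro H hH
        exact hH.2 z
      exact h1 hH
    have hTM : TorusMapsIn I (Ideal.span {G}) := by
      intro η₁ η₂ hη g hg h1 h2 hgI hgnc z
      have h3 : ∀ z, eval (g z).rep G = 0 := hT η₁ η₂ g hη hg h1 h2 hgnc fun H hH hHf z =>
        hgI z H (Ideal.subset_span ⟨hH, hHf⟩) hH
      intro H hH _
      have h4 : Ideal.span {G} ≤ RingHom.ker (eval (g z).rep) := by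
        rw [Ideal.span_le]
        rintro _ rfl
        exact h3 z
      exact h4 hH
    have h5 := Pool.Agent.X316.ZE.built_torus hTM hf ⟨ω₁, ω₂, hind, ι, u, hu, Or.inr ha⟩ hI hnc
    intro z
    exact h5 z G (Ideal.mem_span_singleton_self G) hG

end Pool.Agent.Results.MP_b9fedf_ag.ClosuresOfBuiltCurves
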