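import Pool.Agent.X323.GI.Fin

/-!
# Entire curves in varieties with finite morphisms to cyclic covers

Let `k` be a field contained in `ℂ`, with algebraic closure `k'` in `ℂ`. Let `V` be a closed subset of
the projective space of dimension `n`, defined over `k'`, of dimension at most `m` (with any
singularities). For `a` in a finite set `A` let `F_a` be a member, generic over `k`, of a linear system
over `k'` of forms of degree `d_a`, and let `Z` be a set of indices `c` such that the linear systems
contain all forms `x_c ^ (d_a - e) x_i ^ e`; let `E₀` be the linear space `x_c = 0`, `c ∈ Z`. Let `E` be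
a subset of `A` and let `q_a ≥ 1` divide `d_a`, for `a ∉ E`. Let `X` be the cover of the intersection of
`V` with the hypersurfaces `F_a = 0`, `a ∈ E`, given by the equations `y_a ^ q_a = F_a (x)`, `a ∉ E`.
Suppose that the sum `δ` of the numbers `d_a + 1`, `a ∈ E`, and `(1 - 1 / q_a) d_a`, `a ∉ E`, is at least
`2 m + 1`.

Let `W = {Φ = 0}` be any projective variety (or closed algebraic set) with a morphism with finite fibres
to `X`, and let `E_W` be the preimage of `E₀`. We prove that the exceptional sets of the
Green-Griffiths-Lang conjecture for `W` are contained in `E_W`, for the following curves: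

* all nonconstant entire curves in `W` that are built from elliptic functions and any jointly
  universal family (for example the Riemann zeta function, by Voronin's theorem) lie in `E_W`;
* all nonconstant holomorphic maps from one-dimensional complex tori to `W` have image in `E_W`;
* all closed subvarieties of `W` of positive dimension not contained in `E_W` are of general type.

If the linear systems are complete, that is, if all coefficients of the forms `F_a` together are
algebraically independent over `k`, then `E_W` is empty, and all the curves are constant.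

A family `u` of meromorphic functions on the plane is called jointly universal if the translates of
every finite subfamily approximate all tuples of zero-free entire functions uniformly on some disc. For
a lattice let `B` be the ring of the polynomials in the elliptic functions of the lattice, the functions
`u j` and all their derivatives. A curve is built from elliptic functions and `u` if for some lattice it
is algebraic over `B`, or has homogeneous coordinates in the smallest set of meromorphic functions
which contains the quotients of elements of `B` and is closed under sums, products and meromorphic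
solutions of linear systems `y' = A y` with coefficients in the set.
-/

set_option autoImplicit false

namespace Pool.Agent.Results.MP_b9fedf_ag.FiniteOverCyclicCovers

open MvPolynomial Pool.Agent.W602.GT Pool.Agent.X323.GI
open scoped LinearAlgebra.Projectivization
open Pool.Agent.TH145.MG (DimLE)
open Pool.Agent.TH143.EL (HolMap Ell)
open Pool.Agent.Y377.IL (IteratedOver AlgebraicOver)
open Pool.Agent.X316.ZG (JointlyUniversal)
open Pool.Agent.X316.ZE (dringB)

variable {N : ℕ} {B : Type}

/-- `K` is (a finite extension of) the function field, and `z` the generic point, of a closed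
subvariety of dimension `w` of `W = {Φ = 0}`. -/
def Subvariety {K : Type} [Field K] [Algebra ℂ K] (Φ : B → MvPolynomial (Fin (N + 1)) ℂ) (w : ℕ)
    (z : Fin (N + 1) → K) : Prop :=
  (z ≠ 0 ∧ ∀ b, aeval z (Φ b) = 0) ∧ Algebra.trdeg ℂ K = w ∧ Algebra.IsAlgebraic (coords ℂ z) K

/-- All closed subvarieties of positive dimension of `W` that are not contained in the set of the zeros
of the forms in `S` are of general type. -/
def GeneralTypeOutside (Φ : B → MvPolynomial (Fin (N + 1)) ℂ)
    (S : Set (MvPolynomial (Fin (N + 1)) ℂ)) : Prop :=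
  ∀ (K : Type) [Field K] [Algebra ℂ K] (w : ℕ) (z : Fin (N + 1) → K), 0 < w →
    Subvariety Φ w z → (∃ G ∈ S, aeval z G ≠ 0) → GeneralType ℂ K w

/-- Every nonconstant holomorphic map from a one-dimensional complex torus to `W` has its image in the
set of the zeros of the forms in `S`. -/
def TorusIn (Φ : B → MvPolynomial (Fin (N + 1)) ℂ) (S : Set (MvPolynomial (Fin (N + 1)) ℂ)) : Prop :=
  ∀ ω₁ ω₂ : ℂ, LinearIndependent ℝ ![ω₁, ω₂] → ∀ f : ℂ → ℙ ℂ (Fin (N + 1) → ℂ), HolMap f →
    (∀ z, f (z + ω₁) = f z) → (∀ z, f (z + ω₂) = f z) → (∀ z b, eval (f z).rep (Φ b) = 0) →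
    (∃ z w, f z ≠ f w) → ∀ z, ∀ G ∈ S, eval (f z).rep G = 0

/-- Every nonconstant entire curve in `W` that is built from elliptic functions and a jointly universal
family has its image in the set of the zeros of the forms in `S`. -/
def BuiltIn (Φ : B → MvPolynomial (Fin (N + 1)) ℂ) (S : Set (MvPolynomial (Fin (N + 1)) ℂ)) : Prop :=
  ∀ (ι : Type) (u : ι → ℂ → ℂ), JointlyUniversal u → ∀ ω₁ ω₂ : ℂ, LinearIndependent ℝ ![ω₁, ω₂] →
    ∀ f : ℂ → ℙ ℂ (Fin (N + 1) → ℂ), HolMap f →
    (IteratedOver (dringB (Ell ω₁ ω₂) u) f ∨ AlgebraicOver (dringB (Ell ω₁ ω₂) u) f) →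
    (∀ z b, eval (f z).rep (Φ b) = 0) → (∃ z w, f z ≠ f w) → ∀ z, ∀ G ∈ S, eval (f z).rep G = 0

/-- The exceptional sets of `W` for the torus curves, the built curves and the subvarieties lie in the
set of the zeros of the forms in `S`. -/
def HyperbolicModulo (Φ : B → MvPolynomial (Fin (N + 1)) ℂ)
    (S : Set (MvPolynomial (Fin (N + 1)) ℂ)) : Prop :=
  BuiltIn Φ S ∧ TorusIn Φ S ∧ GeneralTypeOutside Φ S

theorem result {k : Type} [Field k] [Algebra k ℂ] {n m : ℕ}
    (V : Set (MvPolynomial (Fin (n + 1)) (algebraicClosure k ℂ)))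
    (hVh : ∀ f ∈ V, ∃ e, f.IsHomogeneous e) (hV : DimLE (algebraicClosure k ℂ) V m)
    {A : Type} [Fintype A] [DecidableEq A] (d : A → ℕ) (E : Finset A) (q : A → ℕ)
    (hq : ∀ a, a ∉ E → q a ≠ 0 ∧ q a ∣ d a) (hd : 2 * m + 1 ≤ covDegree d E q)
    (F : A → MvPolynomial (Fin (n + 1)) ℂ) {S : Type} (Φ : B → MvPolynomial (Fin (N + 1)) ℂ)
    (hΦ : ∀ b, IsForm (Φ b)) (g : S → Fin (n + 1) → MvPolynomial (Fin (N + 1)) ℂ)
    (h : S → A → MvPolynomial (Fin (N + 1)) ℂ) (hW : FiniteMap Φ V F E q g h) :
    -- (1) generic members of linear systems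
    (∀ Z : Set (Fin (n + 1)), GenericMembers k d Z F → HyperbolicModulo Φ (pullForms g Z)) ∧
    -- (2) forms with independent coefficients
    ((∀ a, (F a).IsHomogeneous (d a)) → (AlgebraicIndependent k
        fun p : (a : A) × {I : Fin (n + 1) →₀ ℕ // I.degree = d a} => (F p.1).coeff p.2.1) →
      HyperbolicModulo Φ {1}) ∧
    -- (3) the zeta function
    JointlyUniversal fun _ : Unit => riemannZeta := by
  have key : ∀ Z : Set (Fin (n + 1)), GenericMembers k d Z F →
      HyperbolicModulo Φ (pullForms g Z) := by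
    intro Z hF
    obtain ⟨h1, -, -, h4, h5⟩ := fin_main hVh hV hF hq hd hΦ hW
    refine ⟨fun ι u hu ω₁ ω₂ hω f hf hb hX hnc z G hG => h5 ι u hu G hG ω₁ ω₂ hω f hf hb hX hnc z,
      fun ω₁ ω₂ hω f hf e1 e2 e3 e4 z => ?_, h1⟩
    exact (inV_span (forms_pull hW)).1
      (h4 ω₁ ω₂ hω f hf e1 e2 (fun z => (inV_eqs hΦ).2 (e3 z)) e4 z)
  refine ⟨key, fun hFh hind => ?_, Pool.Agent.X316.ZG.zeta_universal⟩
  obtain ⟨h1, h2, h3⟩ := key Set.univ (generic_full hFh hind)
  have hno : ∀ p : ℙ ℂ (Fin (N + 1) → ℂ), (∀ b, eval p.rep (Φ b) = 0) →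
      ∃ G ∈ pullForms g Set.univ, eval p.rep G ≠ 0 := by
    intro p hp
    obtain ⟨⟨s, hs⟩, -⟩ := hW.2 ℂ p.rep p.rep_nonzero fun b => by
      rw [Pool.Agent.X332.GT.aeval_eval]
      exact hp b
    obtain ⟨c, hc⟩ := Function.ne_iff.1 hs
    exact ⟨g s c, ⟨s, c, Set.mem_univ _, rfl⟩, fun h0 => hc (by
      rw [Pool.Agent.X332.GT.aeval_eval, h0]
      rfl)⟩
  refine ⟨?_, ?_, ?_⟩
  · intro ι u hu ω₁ ω₂ hω f hf hb hX hnc z
    obtain ⟨G, hG, hne⟩ := hno (f z) (hX z)
    exact absurd (h1 ι u hu ω₁ ω₂ hω f hf hb hX hnc z G hG) hne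
  · intro ω₁ ω₂ hω f hf e1 e2 hX hnc z
    obtain ⟨G, hG, hne⟩ := hno (f z) (hX z)
    exact absurd (h2 ω₁ ω₂ hω f hf e1 e2 hX hnc z G hG) hne
  · intro K _ _ w z hw hz _
    obtain ⟨⟨s, hs⟩, -⟩ := hW.2 K z hz.1.1 hz.1.2
    obtain ⟨c, hc⟩ := Function.ne_iff.1 hs
    exact h3 K w z hw hz ⟨g s c, ⟨s, c, Set.mem_univ _, rfl⟩, hc⟩

end Pool.Agent.Results.MP_b9fedf_ag.FiniteOverCyclicCovers
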