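import Mathlib
import Pool.Agent.X333.DN.ImT
import Pool.Agent.Y221.FQ.Ell

/-!
MP_b9fedf_ag, Q1: maps from tori and entire curves, relative to closed subsets, for the finite
images of projective varieties given by nested sums of high powers, and of their covers.

`V = {F = 0}` in `ℙⁿ` is a projective variety whose equations are nested sums of high powers of
linear forms, or nested sums of high powers of monomials. We consider the images `X = {Φ = 0}` of
`V`, and of the finite covers `W = {Ψ = 0}` of subvarieties of `V`, under finite morphisms with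
fibres of at most `r` points. No assumption is made on the singularities and the branch loci.

`im`, `Mor`, `Onto`, `FibresLe`, `SpH`, `Entire`, `AllGeneral` (`Pool/Agent/Y221/FQ/Defs.lean`),
`TorusCurve`, `SpE` (`Pool/Agent/Y221/FQ/Ell.lean`), `PS`, `OnX`, `Holo`
(`Pool/Agent/TH182/TC/Core.lean`), `Cone`, `SpAlg` (`Pool/Agent/W602/GT/SpDefs.lean`), `HighTowers`
(`Pool/Agent/TH710/ND/Proj.lean`).
-/

set_option autoImplicit false

namespace Pool.Agent.Results.MP_b9fedf_ag.NestedImageTorusLoci

open Pool.Agent.W602.GT Pool.Agent.Y221.FQ Pool.Agent.TH710.ND Pool.Agent.X333.DN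

/-- Let `V = {F = 0}`, where the forms `F_e` are nested sums with at most `h + 1` levels, at most
`s` summands at each, and exponents at least `4 (n + 1) (h + 1) 100 ^ s (r + 1) ^ 7`, and let
`E = ℂ / (ℤ w1 + ℤ w2)` be any one-dimensional complex torus. `SpE w1 w2 X` is the closure of the
union of the images of the nonconstant holomorphic maps from `E` to `X`, the smallest closed subset
of `X` which contains them.

(1) Let `G : V → X = {Φ = 0}` be a surjective morphism with fibres of at most `r` points. If all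
nonconstant holomorphic maps from `E` to `X` have their images in a closed subset `Z` of `X`, then
all nonconstant entire curves in `X`, and all closed subvarieties of positive dimension of `X` which
are not of general type lie in `Z`. In particular (`Z` empty), if all holomorphic maps from `E` to
`X` are constant then all holomorphic maps from the complex plane to `X` are constant, and all
closed subvarieties of positive dimension of `X` are of general type.

(2) Let `W = {Ψ = 0}` be a projective variety with a morphism `B : W → V` and a surjective morphism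
`G : W → X = {Φ = 0}` with fibres of at most `r` points. If all nonconstant holomorphic maps from
`E` to `V` have their images in a closed subset `Z` of `V` then the entire curves and the
subvarieties in (1) lie in the closed set `G (B⁻¹ Z)`. -/
theorem result {n M : ℕ} {ι μ : Type} {F : ι → MvPolynomial (Fin (n + 1)) ℂ}
    {Φ : μ → MvPolynomial (Fin (M + 1)) ℂ} {s N h r : ℕ} (hF : HighTowers s N h F)
    (hN : (n + 1) * ((h + 1) * (4 * 10 ^ (2 * s) * (r + 1) ^ 7)) ≤ N)
    (hΦ : ∀ e, IsForm (Φ e)) {w1 w2 : ℂ} (hw : LinearIndependent ℝ ![w1, w2]) :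
    (∀ G : Fin (M + 1) → MvPolynomial (Fin (n + 1)) ℂ, Mor F Φ G → Onto F Φ G → FibresLe F G r →
      (SpH Φ ⊆ SpE w1 w2 Φ ∧ SpAlg Φ ⊆ SpE w1 w2 Φ) ∧
      ((∀ g, ¬ TorusCurve w1 w2 Φ g) → (∀ f, ¬ Entire Φ f) ∧ AllGeneral Φ)) ∧
    (∀ (m : ℕ) (κ : Type) (Ψ : κ → MvPolynomial (Fin (m + 1)) ℂ)
      (B : Fin (n + 1) → MvPolynomial (Fin (m + 1)) ℂ)
      (G : Fin (M + 1) → MvPolynomial (Fin (m + 1)) ℂ), (∀ e, IsForm (Ψ e)) → Mor Ψ F B →
      Mor Ψ Φ G → Onto Ψ Φ G → FibresLe Ψ G r →
      SpH Φ ⊆ im G '' {x | x ∈ Cone Ψ ∧ im B x ∈ SpE w1 w2 F} ∧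
      SpAlg Φ ⊆ im G '' {x | x ∈ Cone Ψ ∧ im B x ∈ SpE w1 w2 F}) := by
  constructor
  · intro G hG hon hfib
    obtain ⟨h1, h2, -⟩ := special_im' hΦ hG hon hfib hF hN
    have h4 := gm_sub_e hw hΦ
    refine ⟨⟨h1.trans_subset h4, h2.trans_subset h4⟩, fun h => ?_⟩
    have h5 := hyp_im' hΦ hG hon hfib hF hN
    have h6 := no_gm_of_e hw hΦ h
    exact ⟨(h5.out 0 2).2 h6, (h5.out 1 2).2 h6⟩
  · intro m κ Ψ B G hΨ hB hG hon hfib
    have h1 := ent_cover hΨ hB hG hon hfib hF hN
    have h2 := alg_cover' hΨ hB hG hon hfib hF (bound_alg hN)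
    have h4 : CovGm Ψ F B G ⊆ im G '' {x | x ∈ Cone Ψ ∧ im B x ∈ SpE w1 w2 F} := by
      rintro _ ⟨x, ⟨hx, hBx⟩, rfl⟩
      exact ⟨x, ⟨hx, gm_sub_e hw hF.form hBx⟩, rfl⟩
    exact ⟨h1.trans h4, h2.trans h4⟩

end Pool.Agent.Results.MP_b9fedf_ag.NestedImageTorusLoci
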