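import Mathlib
import Pool.Agent.X333.PW.Ana

/-!
MP_b9fedf_ag, Q1: maps from tori and entire curves, relative to closed subsets, for the projective
varieties `X` which are, outside a closed subset `Z`, unions of images of quasi-projective varieties
given by nested sums of high powers.

`X = {Φ = 0}` is a projective variety in `ℙ^M`. For finitely many indices `a` let
`V_a = {F_a = 0, Q_a ≠ 0}` be quasi-projective varieties in projective spaces of any dimensions
`n a`, where the equations `F_a` are nested sums of high powers of linear forms, or nested sums of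
high powers of monomials, and `Q_a` is any form, and let `V_a → X` be morphisms given by forms,
with fibres of at most `r a` points, such that `X \ Z` is contained in the union of their images.
The morphisms need not be finite, proper or dominant, they need not extend to `{F_a = 0}`, and
nothing is assumed on the singularities.

`Pt`, `MapOn`, `FibLe`, `Covers` (`Pool/Agent/X333/PW/Def.lean`), `GenMod`
(`Pool/Agent/X333/DC/FimT.lean`), `val`, `Entire` (`Pool/Agent/Y221/FQ/Defs.lean`), `TorusCurve`
(`Pool/Agent/Y221/FQ/Ell.lean`), `GmCurve` (`Pool/Agent/W602/GT/SpGmDefs.lean`), `HighTowers`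
(`Pool/Agent/TH710/ND/Proj.lean`).
-/

set_option autoImplicit false

namespace Pool.Agent.Results.MP_b9fedf_ag.PiecewiseTorusLoci

open Pool.Agent.W602.GT Pool.Agent.Y221.FQ Pool.Agent.TH710.ND Pool.Agent.X333.PW
open Pool.Agent.X333.DC (GenMod)

/-- Let `X = {Φ = 0}` be a projective variety in `ℙ^M`, `T` a set of forms and `Z` the closed subset
of `X` where all forms in `T` vanish (`Z` is empty for `T = {1}`). Suppose that `X \ Z` is contained
in the union of the images of finitely many quasi-projective varieties
`V_a = {F_a = 0, Q_a ≠ 0}` in `ℙ^(n a)` under morphisms `G_a : V_a → X` with fibres of at most `r a`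
points, where the forms `F_a` are nested sums with at most `h a + 1` levels, at most `s a` summands
at each, and exponents at least `4 (n a + 1) (h a + 1) 100 ^ (s a) (r a + 1) ^ 7`.

(1) Let `E = ℂ / (ℤ w1 + ℤ w2)` be any one-dimensional complex torus. If the images of all
nonconstant holomorphic maps from `E` to `X` lie in `Z`, then the images of all nonconstant entire
curves in `X` lie in `Z`, and all closed subvarieties of `X` of positive dimension which are not
contained in `Z` are of general type.

(2) The following are equivalent: all nonconstant entire curves in `X` lie in `Z`; all nonconstant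
morphisms from the multiplicative group to `X` have their images in `Z`; all closed subvarieties
of `X` of positive dimension which are not contained in `Z` are of general type. -/
theorem result {M : ℕ} {μ : Type} {Φ : μ → MvPolynomial (Fin (M + 1)) ℂ} {α : Type} [Finite α]
    {n : α → ℕ} {ι : α → Type} {F : ∀ a, ι a → MvPolynomial (Fin (n a + 1)) ℂ}
    {Q : ∀ a, MvPolynomial (Fin (n a + 1)) ℂ}
    {G : ∀ a, Fin (M + 1) → MvPolynomial (Fin (n a + 1)) ℂ} {r s N h : α → ℕ}
    {T : Set (MvPolynomial (Fin (M + 1)) ℂ)} (hΦ : ∀ e, IsForm (Φ e)) (hT : ∀ H ∈ T, IsForm H)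
    (hcov : Covers F Q Φ G T) (hG : ∀ a, MapOn (F a) (Q a) Φ (G a))
    (hfib : ∀ a, FibLe (F a) (Q a) (G a) (r a)) (hF : ∀ a, HighTowers (s a) (N a) (h a) (F a))
    (hN : ∀ a, (n a + 1) * ((h a + 1) * (4 * 10 ^ (2 * s a) * (r a + 1) ^ 7)) ≤ N a) :
    (∀ w1 w2 : ℂ, LinearIndependent ℝ ![w1, w2] →
      (∀ g, TorusCurve w1 w2 Φ g → ∀ z, ∀ H ∈ T, val (g z).rep H = 0) →
      (∀ f, Entire Φ f → ∀ t, ∀ H ∈ T, val (f t) H = 0) ∧ GenMod Φ T) ∧
    [∀ f, Entire Φ f → ∀ t, ∀ H ∈ T, val (f t) H = 0,
      ∀ P, GmCurve Φ P → ∀ t : ℂ, t ≠ 0 → ∀ H ∈ T, val (fun i => (P i).eval t) H = 0,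
      GenMod Φ T].TFAE := by
  have h0 := ent_tfae hΦ hcov hG hfib hF hN hT
  refine ⟨fun w1 w2 hw h => ?_, h0⟩
  have h1 : ∀ P, GmCurve Φ P → ∀ t : ℂ, t ≠ 0 → ∀ H ∈ T,
      val (fun i => (P i).eval t) H = 0 := fun P hP t ht H hH =>
    gm_of_torus hΦ hw hT h hP ht hH
  exact ⟨(h0.out 1 0).1 h1, (h0.out 1 2).1 h1⟩

end Pool.Agent.Results.MP_b9fedf_ag.PiecewiseTorusLoci
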